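import Pool.Agent.Y234.EM.Stm

/-! Job EM-MULT: the lengths at the origin (helper188). -/

set_option autoImplicit false

namespace Pool.Agent.Y188.EM

open Pool.Agent.Y234.EM IsLocalRing Module

section core

variable {k P B : Type} [Field k] [CommRing P] [Algebra k P] [IsLocalRing P] [CommRing B]
  [Algebra k B] [Algebra P B] [IsScalarTower k P B]

theorem core [Module.Finite P B] [Module.Projective P B] [Module.Finite k P]
    (h1 : Function.Surjective (algebraMap k (P ⧸ maximalIdeal P))) :
    finrank k B = finrank k (B ⧸ (maximalIdeal P).map (algebraMap P B)) * finrank k P := by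
  have hfree : Module.Free P B := Module.free_of_flat_of_isLocalRing
  have e1 : finrank k P * finrank P B = finrank k B := Module.finrank_mul_finrank k P B
  have e2 : finrank (P ⧸ maximalIdeal P) (B ⧸ (maximalIdeal P).map (algebraMap P B)) =
      finrank P B := IsLocalRing.finrank_quotient_map
  let _ : Field (P ⧸ maximalIdeal P) := Ideal.Quotient.field _
  have tw : IsScalarTower k (P ⧸ maximalIdeal P)
      (B ⧸ (maximalIdeal P).map (algebraMap P B)) := by
    refine IsScalarTower.of_algebraMap_eq fun r => ?_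
    change Ideal.Quotient.mk _ (algebraMap k B r) =
      Ideal.Quotient.mk _ (algebraMap P B (algebraMap k P r))
    rw [← IsScalarTower.algebraMap_apply]
  have e3 : finrank k (P ⧸ maximalIdeal P) = 1 := by
    have e : k ≃ₗ[k] (P ⧸ maximalIdeal P) :=
      LinearEquiv.ofBijective (Algebra.linearMap k (P ⧸ maximalIdeal P))
        ⟨(algebraMap k (P ⧸ maximalIdeal P)).injective, h1⟩
    rw [← e.finrank_eq, finrank_self]
  have e4 : finrank k (P ⧸ maximalIdeal P) *
      finrank (P ⧸ maximalIdeal P) (B ⧸ (maximalIdeal P).map (algebraMap P B)) =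
      finrank k (B ⧸ (maximalIdeal P).map (algebraMap P B)) :=
    Module.finrank_mul_finrank k (P ⧸ maximalIdeal P) _
  rw [← e1, ← e4, e3, e2, one_mul, mul_comm]

end core

theorem main_abs {k P A B : Type} [Field k] [CommRing P] [IsLocalRing P] [Algebra k P]
    [Module.Finite k P] [CommRing A] [CommRing B] [Algebra k A] [Algebra k B] (φ : P →+* A)
    (hφ : φ.comp (algebraMap k P) = algebraMap k A) (π : A →+* B) (hπ : Function.Surjective π)
    (hπk : π.comp (algebraMap k A) = algebraMap k B) {ι : Type} [Fintype ι] (x : ι → A)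
    (hspan : ∀ a, ∃ c : ι → P, a = ∑ i, φ (c i) * x i)
    (hind : ∀ c : ι → P, ∑ i, φ (c i) * x i = 0 → ∀ i, c i = 0) (e : A) (he : e * e = e)
    (hker : RingHom.ker π = Ideal.span {1 - e})
    (h1 : Function.Surjective (algebraMap k (P ⧸ maximalIdeal P))) :
    finrank k B = finrank k (B ⧸ (maximalIdeal P).map (π.comp φ)) * finrank k P := by
  let _ : Algebra P A := φ.toAlgebra
  let _ : Algebra P B := (π.comp φ).toAlgebra
  have t1 : IsScalarTower k P A := IsScalarTower.of_algebraMap_eq' hφ.symm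
  have t2 : IsScalarTower k P B := IsScalarTower.of_algebraMap_eq' (by
    rw [← hπk, ← hφ]
    rfl)
  have hb : ∃ b : Basis ι P A, True := by
    refine ⟨Basis.mk (v := x) ?_ ?_, trivial⟩
    · rw [Fintype.linearIndependent_iff]
      intro c hc
      exact hind c hc
    · rintro a -
      obtain ⟨c, hc⟩ := hspan a
      rw [hc]
      refine Submodule.sum_mem _ fun i _ => ?_
      exact Submodule.smul_mem (Submodule.span P (Set.range x)) (c i)
        (Submodule.subset_span ⟨i, rfl⟩)
  obtain ⟨b, -⟩ := hb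
  have f1 : Module.Free P A := Module.Free.of_basis b
  have f2 : Module.Finite P A := Module.Finite.of_basis b
  have hsm : ∀ (c : P) (a : A), π (c • a) = c • π a := by
    intro c a
    change π (φ c * a) = π (φ c) * π a
    rw [map_mul]
  let πl : A →ₗ[P] B :=
    { toFun := π
      map_add' := map_add π
      map_smul' := hsm }
  have f3 : Module.Finite P B := Module.Finite.of_surjective πl hπ
  have hsec : ∀ a a' : A, π a = π a' → e * a = e * a' := by
    intro a a' h
    have h2 : a - a' ∈ RingHom.ker π := by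
      rw [RingHom.mem_ker, map_sub, h, sub_self]
    rw [hker, Ideal.mem_span_singleton'] at h2
    obtain ⟨t, ht⟩ := h2
    have h3 : e * (a - a') = 0 := by
      rw [← ht]
      linear_combination (-t) * he
    linear_combination h3
  choose s hs using hπ
  have hadd : ∀ y y' : B, e * s (y + y') = e * s y + e * s y' := by
    intro y y'
    rw [← mul_add]
    exact hsec _ _ (by rw [hs, map_add, hs, hs])
  have hsmul : ∀ (c : P) (y : B), e * s (c • y) = c • (e * s y) := by
    intro c y
    change e * s (c • y) = φ c * (e * s y)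
    have h2 : e * s (c • y) = e * (φ c * s y) := by
      refine hsec _ _ ?_
      rw [hs, map_mul, hs]
      rfl
    rw [h2]
    ring
  let i : B →ₗ[P] A :=
    { toFun := fun y => e * s y
      map_add' := hadd
      map_smul' := hsmul }
  have hi : πl.comp i = LinearMap.id := by
    ext y
    change π (e * s y) = y
    have h2 : π (1 - e) = 0 := by
      rw [← RingHom.mem_ker, hker]
      exact Ideal.mem_span_singleton_self _
    have h3 : π e = 1 := by
      rw [map_sub, map_one, sub_eq_zero] at h2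
      exact h2.symm
    rw [map_mul, h3, one_mul, hs]
  have f4 : Module.Projective P B := Module.Projective.of_split i πl hi
  exact core h1

section loc

variable {k : Type} [Field k] {v : ℕ}

theorem mem_mm (p : MvPolynomial (Fin v) k) :
    p ∈ mm k v ↔ MvPolynomial.constantCoeff p = 0 := by
  constructor
  · intro hp
    have h : mm k v ≤ RingHom.ker (MvPolynomial.constantCoeff (σ := Fin v) (R := k)) := by
      rw [Ideal.span_le]
      rintro _ ⟨i, rfl⟩
      exact MvPolynomial.constantCoeff_X (R := k) i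
    exact h hp
  · intro hp
    change p ∈ Ideal.span (Set.range MvPolynomial.X)
    rw [← Set.image_univ, MvPolynomial.mem_ideal_span_X_image]
    intro m hm
    have hm0 : m ≠ 0 := by
      rintro rfl
      exact (MvPolynomial.mem_support_iff.1 hm) hp
    obtain ⟨i, hi⟩ := Finsupp.ne_iff.1 hm0
    exact ⟨i, trivial, hi⟩

theorem mm_max : (mm k v).IsMaximal := by
  have h : mm k v = RingHom.ker (MvPolynomial.constantCoeff (σ := Fin v) (R := k)) := by
    ext p
    rw [mem_mm, RingHom.mem_ker]
  rw [h]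
  exact RingHom.ker_isMaximal_of_surjective _ fun c => ⟨MvPolynomial.C c, by simp⟩

theorem isLocal {n : ℕ} (hn : 1 ≤ n) :
    ∃ h : IsLocalRing (MvPolynomial (Fin v) k ⧸ mm k v ^ n),
      @maximalIdeal _ _ h = (mm k v).map (Ideal.Quotient.mk (mm k v ^ n)) := by
  have hmax := mm_max (k := k) (v := v)
  have h1 : ((mm k v).map (Ideal.Quotient.mk (mm k v ^ n))).IsMaximal := by
    refine Ideal.IsMaximal.map_of_surjective_of_ker_le Ideal.Quotient.mk_surjective ?_
    rw [Ideal.mk_ker]
    exact Ideal.pow_le_self (by omega)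
  have h2 : IsLocalRing (MvPolynomial (Fin v) k ⧸ mm k v ^ n) := by
    refine IsLocalRing.of_unique_max_ideal ⟨_, h1, fun N hN => ?_⟩
    have h3 : mm k v ≤ N.comap (Ideal.Quotient.mk (mm k v ^ n)) := by
      have hp : (N.comap (Ideal.Quotient.mk (mm k v ^ n))).IsPrime :=
        Ideal.comap_isPrime _ N
      refine hp.le_of_pow_le (n := n) ?_
      intro x hx
      rw [Ideal.mem_comap, Ideal.Quotient.eq_zero_iff_mem.2 hx]
      exact zero_mem _
    have h4 := hmax.eq_of_le (Ideal.comap_ne_top _ hN.ne_top) h3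
    exact ((congrArg (Ideal.map (Ideal.Quotient.mk (mm k v ^ n))) h4).trans
      (Ideal.map_comap_of_surjective _ Ideal.Quotient.mk_surjective N)).symm
  exact ⟨h2, (IsLocalRing.eq_maximalIdeal h1).symm⟩

theorem map_mm (f : Fin v → MvPolynomial (Fin v) k) :
    (mm k v).map (MvPolynomial.aeval f : MvPolynomial (Fin v) k →ₐ[k] _).toRingHom = qq f := by
  change Ideal.map _ (Ideal.span (Set.range MvPolynomial.X)) = Ideal.span (Set.range f)
  rw [Ideal.map_span, ← Set.range_comp]
  congr 2
  funext i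
  exact MvPolynomial.aeval_X f i

end loc

theorem mult : S_BAS → S_QP → S_MULT := by
  intro hBAS hQP k _ v M n f hf hn
  obtain ⟨hQ1, hQ2⟩ := hQP
  obtain ⟨hfin, -⟩ := hQ2 k v M n f hf hn
  obtain ⟨hfinP, hdimP⟩ := hQ2 k v 1 n (MvPolynomial.X)
    ⟨le_rfl, fun i => ⟨0, by simp, by simp⟩⟩ hn
  obtain ⟨hloc, hmaxi⟩ := isLocal (k := k) (v := v) hn
  let mA : Ideal (MvPolynomial (Fin v) k ⧸ qq f ^ n) :=
    (mm k v).map (Ideal.Quotient.mk (qq f ^ n))
  have hart : IsArtinianRing (MvPolynomial (Fin v) k ⧸ qq f ^ n) :=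
    IsArtinianRing.of_finite k _
  obtain ⟨L0, hL0⟩ := IsArtinian.monotone_stabilizes
    (R := MvPolynomial (Fin v) k ⧸ qq f ^ n) (M := MvPolynomial (Fin v) k ⧸ qq f ^ n)
    ⟨fun L => OrderDual.toDual (mA ^ L), fun a b hab => Ideal.pow_le_pow_right hab⟩
  have hst : ∀ L, L0 ≤ L → mA ^ L0 = mA ^ L := fun L hL => OrderDual.toDual.injective (hL0 L hL)
  refine ⟨L0, fun L hL => ?_⟩
  -- the idempotent
  have hidem : IsIdempotentElem (mA ^ L) := by
    change mA ^ L * mA ^ L = mA ^ L
    rw [← pow_add, ← hst (L + L) (by omega), hst L hL]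
  obtain ⟨e, he, heI⟩ := (Ideal.isIdempotentElem_iff_of_fg (mA ^ L)
    (IsNoetherian.noetherian _)).1 hidem
  -- the maps
  let J : Ideal (MvPolynomial (Fin v) k) := qq f ^ n ⊔ mm k v ^ L
  let π : (MvPolynomial (Fin v) k ⧸ qq f ^ n) →+* (MvPolynomial (Fin v) k ⧸ J) :=
    Ideal.Quotient.factor le_sup_left
  let φ : (MvPolynomial (Fin v) k ⧸ mm k v ^ n) →+* (MvPolynomial (Fin v) k ⧸ qq f ^ n) :=
    Ideal.Quotient.lift (mm k v ^ n) ((Ideal.Quotient.mk (qq f ^ n)).comp
      (MvPolynomial.aeval f : MvPolynomial (Fin v) k →ₐ[k] _).toRingHom) (by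
        intro x hx
        change Ideal.Quotient.mk (qq f ^ n) (MvPolynomial.aeval f x) = 0
        rw [Ideal.Quotient.eq_zero_iff_mem, ← map_mm f, ← Ideal.map_pow]
        exact Ideal.mem_map_of_mem _ hx)
  have hφmk : ∀ p, φ (Ideal.Quotient.mk _ p) = Ideal.Quotient.mk _ (MvPolynomial.aeval f p) :=
    fun p => rfl
  have hπmk : ∀ p, π (Ideal.Quotient.mk _ p) = Ideal.Quotient.mk _ p := fun p => rfl
  have hker : RingHom.ker π = mA ^ L := by
    ext x
    obtain ⟨y, rfl⟩ := Ideal.Quotient.mk_surjective x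
    rw [RingHom.mem_ker, hπmk, Ideal.Quotient.eq_zero_iff_mem]
    change y ∈ qq f ^ n ⊔ mm k v ^ L ↔ _ ∈ ((mm k v).map (Ideal.Quotient.mk (qq f ^ n))) ^ L
    rw [← Ideal.map_pow, Ideal.mem_quotient_iff_mem_sup, sup_comm]
  have h1 : Function.Surjective (algebraMap k
      ((MvPolynomial (Fin v) k ⧸ mm k v ^ n) ⧸ maximalIdeal (MvPolynomial (Fin v) k ⧸ mm k v ^ n))) := by
    intro y
    obtain ⟨x, rfl⟩ := Ideal.Quotient.mk_surjective y
    obtain ⟨p, rfl⟩ := Ideal.Quotient.mk_surjective x
    refine ⟨MvPolynomial.constantCoeff p, ?_⟩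
    change Ideal.Quotient.mk _ (Ideal.Quotient.mk _ (MvPolynomial.C _)) = _
    rw [Ideal.Quotient.eq, ← map_sub, hmaxi]
    refine Ideal.mem_map_of_mem _ ?_
    rw [mem_mm]
    simp
  have key := main_abs (k := k) φ (by
      ext r
      change Ideal.Quotient.mk _ (MvPolynomial.aeval f (MvPolynomial.C r)) = _
      rw [MvPolynomial.aeval_C]
      rfl) π (Ideal.Quotient.factor_surjective _) rfl
    (fun a : Fin v → Fin M => Ideal.Quotient.mk (qq f ^ n) (∏ i, MvPolynomial.X i ^ (a i : ℕ)))
    (by
      intro y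
      obtain ⟨G, rfl⟩ := Ideal.Quotient.mk_surjective y
      obtain ⟨H, hH, -⟩ := hBAS k v M f hf G
      refine ⟨fun a => Ideal.Quotient.mk _ (H a), ?_⟩
      conv_lhs => rw [hH]
      rw [map_sum]
      refine Finset.sum_congr rfl fun a _ => ?_
      rw [map_mul, hφmk])
    (by
      intro c hc
      choose H hH using fun a => Ideal.Quotient.mk_surjective (c a)
      have h2 : ∑ a : Fin v → Fin M, MvPolynomial.aeval f (H a) *
          ∏ i, MvPolynomial.X i ^ (a i : ℕ) ∈ qq f ^ n := by
        rw [← Ideal.Quotient.eq_zero_iff_mem, map_sum, ← hc]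
        refine Finset.sum_congr rfl fun a _ => ?_
        rw [map_mul, ← hH a, hφmk]
      intro a
      rw [← hH a, Ideal.Quotient.eq_zero_iff_mem]
      exact (hQ1 k v M n f hf H).1 h2 a)
    (1 - e) (by linear_combination he.eq) (by
      rw [hker, heI, sub_sub_cancel]) h1
  -- the factors
  have hP : finrank k (MvPolynomial (Fin v) k ⧸ mm k v ^ n) = cn n v := by
    have h2 : dg (qq (MvPolynomial.X : Fin v → MvPolynomial (Fin v) k) ^ n) = cn n v * 1 ^ v :=
      hdimP
    rw [one_pow, mul_one] at h2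
    exact h2
  have hK : (maximalIdeal (MvPolynomial (Fin v) k ⧸ mm k v ^ n)).map (π.comp φ) =
      (qq f).map (Ideal.Quotient.mkₐ k J) := by
    rw [hmaxi, Ideal.map_map]
    have h2 : (π.comp φ).comp (Ideal.Quotient.mk (mm k v ^ n)) =
        (Ideal.Quotient.mk J).comp
          (MvPolynomial.aeval f : MvPolynomial (Fin v) k →ₐ[k] _).toRingHom := rfl
    rw [h2, ← Ideal.map_map, map_mm]
    rfl
  have hJ : J ⊔ qq f = qq f ⊔ mm k v ^ L := by
    have h2 : qq f ^ n ≤ qq f := Ideal.pow_le_self (by omega)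
    change qq f ^ n ⊔ mm k v ^ L ⊔ qq f = _
    rw [sup_comm, ← sup_assoc, sup_eq_left.2 h2]
  have hB : finrank k ((MvPolynomial (Fin v) k ⧸ J) ⧸
      (maximalIdeal (MvPolynomial (Fin v) k ⧸ mm k v ^ n)).map (π.comp φ)) =
      dg (qq f ⊔ mm k v ^ L) := by
    rw [hK, (DoubleQuot.quotQuotEquivQuotSupₐ k J (qq f)).toLinearEquiv.finrank_eq, hJ]
  rw [hB, hP] at key
  exact key

end Pool.Agent.Y188.EM
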